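import Pool.Agent.Lib.BiPoly.Basic

/-! The polynomials of the example and the kernel checks of the polynomial inequalities. -/

namespace Pool.Agent.MP_69a10d_gt
open Pool.Agent.Lib.BiPoly

def Lf : List (List ℤ) :=
  [[1600, 0, 0], [903, 0, 0], [-6568, -6249, 7817], [9327, 11142, -16161], [-6714, -3252, 8214],
    [1772, -1641, 130]]

def LK : List (List ℤ) :=
  [[0, 0, 0], [0, 0, 0], [95411200, -77542400, 3507200], [-260838400, 399436800, -162739200],
    [254464000, -576896000, 341632000], [-82534300, 255001600, -182400000]]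

def Lp : List (List ℤ) :=
  [[5088, 82, -112], [-6762, -3984, 5296], [87488, 86272, -112704], [-551040, -559040, 743424],
    [2168576, 2181632, -2913280], [-4959232, -4834304, 6537216], [6508544, 6062080, -8323072],
    [-4538368, -4046848, 5636096], [1310720, 1114112, -1572864]]

def Ls : List (List ℤ) := [[0, 1]]
def LA : List (List ℤ) := [[0, 4, -4]]
def LB : List (List ℤ) := [[2, -4]]
def LC : List (List ℤ) := [[4, -4]]

def LP : List (List ℤ) := add (mul Lf Lf) (mul LK Ls)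
def LP1 : List (List ℤ) := add (smul 2 (mul Lf (eul Lf))) (mul (eul LK) Ls)
def LP2 : List (List ℤ) :=
  add (add (smul 2 (mul (eul Lf) (eul Lf))) (smul 2 (mul Lf (eul (eul Lf))))) (mul (eul (eul LK)) Ls)
def LP3 : List (List ℤ) := add (add (smul 2 (mul Lf (dY Lf))) (mul (dY LK) Ls)) LK
def LP4 : List (List ℤ) :=
  add (add (add (smul 2 (mul (dY Lf) (dY Lf))) (smul 2 (mul Lf (dY (dY Lf)))))
    (mul (dY (dY LK)) Ls)) (smul 2 (dY LK))
def LlapP : List (List ℤ) := add (add LP2 (mul LA LP4)) (mul LB LP3)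
def LgradP : List (List ℤ) := add (mul LP1 LP1) (mul LA (mul LP3 LP3))
def Llapf : List (List ℤ) :=
  add (add (add (add (eul (eul Lf)) (mul LA (dY (dY Lf)))) (mul LB (dY Lf))) (smul (-2) (eul Lf)))
    (mul LC (dY Lf))
def LE : List (List ℤ) :=
  add (mul Lf (add (mul LP LlapP) (smul (-1) LgradP))) (smul 2 (mul (mul LP LP) Llapf))
def LN : List (List ℤ) := smul (-1) (LE.drop 2)

theorem LE_eq (x y : ℝ) : ev LE x y = -(x ^ 2 * ev LN x y) := by
  have h : isZero (add LE (smul (-1) ([] :: [] :: smul (-1) LN))) = true := by decide +kernel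
  rw [ev_eq_of_isZero h]
  simp [ev_smul]; ring

theorem LN_nonneg {x y : ℝ} (hx0 : 0 ≤ x) (hx1 : x ≤ 1) (hy0 : 0 ≤ y) (hy1 : y ≤ 1) :
    0 ≤ ev LN x y := by
  have h : boxCheck 23 10
    (.y (.x (.x (.y .l .l) .l) (.x (.y .l (.y .l (.y .l .l))) (.x (.y .l .l) (.y .l .l))))
      (.x (.y .l (.y .l .l)) (.y (.x .l .l) .l))) LN = true := by decide +kernel
  exact boxCheck_sound h hx0 hx1 hy0 hy1

theorem Lp_mul_ge {x y : ℝ} (hx0 : 0 ≤ x) (hx1 : x ≤ 1) (hy0 : 0 ≤ y) (hy1 : y ≤ 1) :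
    8000000 ≤ ev Lp x y * ev Lf x y := by
  have h : boxCheck 13 4
    (.x (.x (.y .l .l) (.x (.y .l .l) (.x .l .l)))
      (.x (.y (.y .l (.y .l (.x .l .l))) .l) (.x (.y .l .l) .l)))
      (add (mul Lp Lf) [[-8000000]]) = true := by decide +kernel
  have := boxCheck_sound h hx0 hx1 hy0 hy1
  rw [ev_add, ev_mul] at this
  simp at this
  linarith

theorem Lf_ge {x y : ℝ} (hx0 : 0 ≤ x) (hx1 : x ≤ 1) (hy0 : 0 ≤ y) (hy1 : y ≤ 1) :
    160 ≤ ev Lf x y := by
  have h : boxCheck 5 2 .l (add Lf [[-160]]) = true := by decide +kernel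
  have := boxCheck_sound h hx0 hx1 hy0 hy1
  rw [ev_add] at this
  simp at this
  linarith

theorem LP_ge {x y : ℝ} (hx0 : 0 ≤ x) (hx1 : x ≤ 1) (hy0 : 0 ≤ y) (hy1 : y ≤ 1) :
    25600 ≤ ev LP x y := by
  have h : boxCheck 10 4 .l (add LP [[-25600]]) = true := by decide +kernel
  have := boxCheck_sound h hx0 hx1 hy0 hy1
  rw [ev_add] at this
  simp at this
  linarith

theorem comm_Lf (x y : ℝ) : ev (eul (dY Lf)) x y = ev (dY (eul Lf)) x y :=
  ev_eq_of_isZero (by decide +kernel) x y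

theorem comm_LK (x y : ℝ) : ev (eul (dY LK)) x y = ev (dY (eul LK)) x y :=
  ev_eq_of_isZero (by decide +kernel) x y

theorem ev_LP (x y : ℝ) : ev LP x y = ev Lf x y * ev Lf x y + ev LK x y * y := by
  simp [LP, ev_add, ev_mul, Ls]

/-- the numerator of the scalar curvature in terms of the jets of `f` and `K` -/
def Enum (s f f1 f2 f3 f4 k k1 k2 k3 k4 : ℝ) : ℝ :=
  f * ((f * f + k * s) * ((2 * f1 * f1 + 2 * f * f2 + k2 * s) +
      4 * s * (1 - s) * (2 * f3 * f3 + 2 * f * f4 + k4 * s + 2 * k3) +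
      (2 - 4 * s) * (2 * f * f3 + k3 * s + k)) -
    ((2 * f * f1 + k1 * s) ^ 2 + 4 * s * (1 - s) * (2 * f * f3 + k3 * s + k) ^ 2)) +
  2 * (f * f + k * s) ^ 2 * (f2 + 4 * s * (1 - s) * f4 + (2 - 4 * s) * f3 - 2 * f1 + 4 * (1 - s) * f3)

theorem ev_LE (x y : ℝ) : ev LE x y =
    Enum y (ev Lf x y) (ev (eul Lf) x y) (ev (eul (eul Lf)) x y) (ev (dY Lf) x y)
      (ev (dY (dY Lf)) x y) (ev LK x y) (ev (eul LK) x y) (ev (eul (eul LK)) x y) (ev (dY LK) x y)
      (ev (dY (dY LK)) x y) := by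
  simp only [LE, LlapP, LgradP, Llapf, LP, LP1, LP2, LP3, LP4, ev_add, ev_mul, ev_smul, Ls, LA, LB,
    LC, ev_cons, ev1_cons, ev_nil, ev1_nil, Enum]
  push_cast
  ring

theorem Lf_one (y : ℝ) : ev Lf 1 y = 320 := by simp [Lf]; ring
theorem LK_one (y : ℝ) : ev LK 1 y = 6502500 := by simp [LK]; ring
theorem eul_Lf_one (y : ℝ) : ev (eul Lf) 1 y = -2248 - 285 * y + 657 * y ^ 2 := by
  rw [ev_eq_of_isZero (P := eul Lf) (Q := [[], [903, 0, 0], [-13136, -12498, 15634],
    [27981, 33426, -48483], [-26856, -13008, 32856], [8860, -8205, 650]]) (by decide +kernel)]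
  simp; ring
theorem eul_LK_one (y : ℝ) : ev (eul LK) 1 y = 13491700 + 10649600 * y - 26675200 * y ^ 2 := by
  rw [ev_eq_of_isZero (P := eul LK) (Q := [[], [0, 0, 0], [190822400, -155084800, 7014400],
    [-782515200, 1198310400, -488217600], [1017856000, -2307584000, 1366528000],
    [-412671500, 1275008000, -912000000]]) (by decide +kernel)]
  simp; ring

end Pool.Agent.MP_69a10d_gt
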