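import Mathlib

/-!
Coordinate Riemannian geometry on subsets of Euclidean 3-space: scalar curvature, mean curvature of a
level surface, capacity, and admissible asymptotically flat extensions of the Bartnik data of a domain.
-/

open MeasureTheory Filter Topology
open scoped ENNReal ContDiff

namespace Pool.Agent.MP_69a10d_gt

/-- Euclidean 3-space. -/
abbrev E3 : Type := EuclideanSpace ℝ (Fin 3)

/-- A field of 3 by 3 matrices (the components `g_ij` of a metric in the standard coordinates). -/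
abbrev Met : Type := E3 → Matrix (Fin 3) (Fin 3) ℝ

/-- The partial derivative of `F` in the `i`-th coordinate direction. -/
noncomputable def pd (i : Fin 3) (F : E3 → ℝ) (x : E3) : ℝ :=
  fderiv ℝ F x (EuclideanSpace.single i 1)

/-- The Christoffel symbol `Γ^i_jk` of `g`. -/
noncomputable def christoffel (g : Met) (i j k : Fin 3) (x : E3) : ℝ :=
  (1 / 2) * ∑ l, (g x)⁻¹ i l *
    (pd j (fun y => g y l k) x + pd k (fun y => g y l j) x - pd l (fun y => g y j k) x)

/-- The Ricci tensor `R_jk = ∂_i Γ^i_jk - ∂_k Γ^i_ij + Γ^i_il Γ^l_jk - Γ^i_kl Γ^l_ij`. -/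
noncomputable def ricci (g : Met) (j k : Fin 3) (x : E3) : ℝ :=
  ∑ i, (pd i (christoffel g i j k) x - pd k (christoffel g i i j) x +
    ∑ l, (christoffel g i i l x * christoffel g l j k x -
      christoffel g i k l x * christoffel g l i j x))

/-- The scalar curvature `R = g^jk R_jk`. -/
noncomputable def scal (g : Met) (x : E3) : ℝ :=
  ∑ j, ∑ k, (g x)⁻¹ j k * ricci g j k x

/-- The squared `g`-norm of the gradient, `g^ij ∂_i F ∂_j F`. -/
noncomputable def gradSq (g : Met) (F : E3 → ℝ) (x : E3) : ℝ :=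
  ∑ i, ∑ j, (g x)⁻¹ i j * pd i F x * pd j F x

/-- The components `ν^i` of the `g`-unit normal `∇ρ / |∇ρ|` of the level surfaces of `ρ`; it points
to the side where `ρ` increases. -/
noncomputable def unitNormal (g : Met) (ρ : E3 → ℝ) (i : Fin 3) (x : E3) : ℝ :=
  (∑ j, (g x)⁻¹ i j * pd j ρ x) / √(gradSq g ρ x)

/-- The mean curvature of the level surface of `ρ` through `x` with respect to `ν = ∇ρ / |∇ρ|`: the
trace over the tangent plane of the second fundamental form `Hess ρ / |∇ρ|` (it is `2 / r` on a round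
Euclidean sphere of radius `r` with the outward normal). -/
noncomputable def meanCurv (g : Met) (ρ : E3 → ℝ) (x : E3) : ℝ :=
  (∑ i, ∑ j, ((g x)⁻¹ i j - unitNormal g ρ i x * unitNormal g ρ j x) *
    (pd i (pd j ρ) x - ∑ k, christoffel g k i j x * pd k ρ x)) / √(gradSq g ρ x)

/-- The capacity of the boundary `{ρ = 0}` of the Riemannian manifold `({ρ ≥ 0}, g)`: the infimum of
`(1 / 4π) ∫ |∇ψ|_g^2 dV_g` over Lipschitz `ψ` that vanish on the boundary and tend to 1 at infinity. -/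
noncomputable def capacity (g : Met) (ρ : E3 → ℝ) : ℝ≥0∞ :=
  ⨅ (ψ : E3 → ℝ) (_ : ∃ K, LipschitzOnWith K ψ {x | 0 ≤ ρ x}) (_ : ∀ x, ρ x = 0 → ψ x = 0)
    (_ : Tendsto ψ (cocompact E3 ⊓ 𝓟 {x | 0 ≤ ρ x}) (𝓝 1)),
    ∫⁻ x in {x | 0 ≤ ρ x}, ENNReal.ofReal (1 / (4 * Real.pi) * (gradSq g ψ x * √(g x).det))

/-- `ρ` is a smooth defining function of the bounded open region `{ρ < 0}`, whose boundary `{ρ = 0}` is
a connected smooth closed embedded surface and whose closed exterior `{ρ ≥ 0}` is connected. -/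
structure IsSmoothBoundedRegion (ρ : E3 → ℝ) : Prop where
  smooth : ContDiff ℝ ∞ ρ
  regular : ∀ x, ρ x = 0 → fderiv ℝ ρ x ≠ 0
  nonempty : {x | ρ x < 0}.Nonempty
  bounded : Bornology.IsBounded {x | ρ x ≤ 0}
  connected_boundary : IsConnected {x | ρ x = 0}
  connected_exterior : IsConnected {x | 0 ≤ ρ x}

/-- `(M, g)` with `M = {σ ≥ 0}` is an admissible asymptotically flat extension of the Bartnik data
(induced Euclidean metric, Euclidean mean curvature for the outward normal) of the boundary `{ρ = 0}`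
of `{ρ < 0}`; `ι` is the isometry of the boundaries and the asymptotic chart is the identity. -/
structure IsAdmissibleExtension (ρ σ : E3 → ℝ) (g : Met) (ι : E3 → E3) : Prop where
  region : IsSmoothBoundedRegion σ
  smooth : ∃ U : Set E3, IsOpen U ∧ {x | 0 ≤ σ x} ⊆ U ∧ ∀ i j, ContDiffOn ℝ ∞ (fun x => g x i j) U
  posDef : ∀ x, 0 ≤ σ x → (g x).PosDef
  integrable_scal : IntegrableOn (fun x => scal g x * √(g x).det) {x | 0 ≤ σ x}
  decay : ∃ C τ r : ℝ, 0 < C ∧ 1 / 2 < τ ∧ τ ≤ 1 ∧ 0 < r ∧ ∀ x : E3, r < ‖x‖ → 0 ≤ σ x ∧ ∀ i j,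
    |g x i j - (1 : Matrix (Fin 3) (Fin 3) ℝ) i j| ≤ C * ‖x‖ ^ (-τ) ∧
    (∀ k, |pd k (fun y => g y i j) x| ≤ C * ‖x‖ ^ (-τ - 1)) ∧
    (∀ k l, |pd k (pd l (fun y => g y i j)) x| ≤ C * ‖x‖ ^ (-τ - 2))
  iso_smooth : ContDiff ℝ ∞ ι
  iso_bijOn : Set.BijOn ι {x | σ x = 0} {x | ρ x = 0}
  iso_metric : ∀ x, σ x = 0 → ∀ v w : E3, fderiv ℝ σ x v = 0 → fderiv ℝ σ x w = 0 →
    ∑ i, ∑ j, g x i j * v i * w j = inner ℝ (fderiv ℝ ι x v) (fderiv ℝ ι x w)
  scal_nonneg : ∀ x, 0 ≤ σ x → 0 ≤ scal g x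
  meanCurv_le : ∀ x, σ x = 0 → meanCurv g σ x ≤ meanCurv (fun _ => 1) ρ (ι x)

end Pool.Agent.MP_69a10d_gt
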